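import Pool.Agent.Lib.MP_688fd0_co.SQ4.Iface
import Pool.Agent.Lib.MP_688fd0_co.SQ2.H62.Near

/-!
NEAR: a frontier meets translates of few others only.
-/

set_option autoImplicit false

namespace Pool.Agent.Lib.MP_688fd0_co.SQ4

open Pool.Agent.Lib.MP_688fd0_co.OSF Pool.Agent.Lib.MP_688fd0_co.SQ2 Pool.Agent.Lib.MP_688fd0_co.SQ3

namespace NearC

open SQ2.NearP

section

variable {Q : Type} [Group Q] {B : Lb.{0, 0} Q} {a b : B.L} {eps : Q →* ℤˣ} {D : Subgroup Q} {z : Q} {k : ℕ}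

theorem U_one (H : HypC B a b eps D z k) {x : Q} (h : eps x = 1) : H.up.U x = x * B.q a := if_pos h

theorem U_neg (H : HypC B a b eps D z k) {x : Q} (h : eps x ≠ 1) : H.up.U x = x * (B.q b)⁻¹ := if_neg h

theorem conjD (H : HypC B a b eps D z k) {δ : Q} (h : δ ∈ D) (x : Q) : x⁻¹ * δ * x ∈ D := by
  have h1 := H.nD.conj_mem δ h x⁻¹
  rwa [inv_inv] at h1

/-- The square of `U`. -/
theorem U_two (H : HypC B a b eps D z k) (x : Q) : ∃ δ ∈ D, H.up.U (H.up.U x) = z * x * δ := by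
  by_cases h : eps x = 1
  · have h1 : eps (x * B.q a) ≠ 1 := by rw [map_mul, h, H.ea]; decide
    refine ⟨z⁻¹ * (B.q a * (B.q b)⁻¹), H.mem, ?_⟩
    rw [U_one H h, U_neg H h1, ← H.cen x h]
    group
  · have h0 : eps x = -1 := (Int.units_eq_one_or (eps x)).resolve_left h
    have h1 : eps (x * (B.q b)⁻¹) = 1 := by rw [map_mul, map_inv, h0, H.eb]; decide
    refine ⟨(B.q b)⁻¹ * (z⁻¹ * (B.q a * (B.q b)⁻¹)) * B.q b, conjD H H.mem _, ?_⟩
    have h2 := H.cen _ h1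
    rw [U_neg H h, U_one H h1]
    calc x * (B.q b)⁻¹ * B.q a = (x * (B.q b)⁻¹ * z) * (z⁻¹ * (B.q a * (B.q b)⁻¹)) * B.q b := by group
      _ = (z * (x * (B.q b)⁻¹)) * (z⁻¹ * (B.q a * (B.q b)⁻¹)) * B.q b := by rw [h2]
      _ = z * x * ((B.q b)⁻¹ * (z⁻¹ * (B.q a * (B.q b)⁻¹)) * B.q b) := by group

/-- The even powers of `U`. -/
theorem U_even (H : HypC B a b eps D z k) (s : ℤ) : ∀ x : Q, ∃ δ ∈ D, (H.up.U ^ (2 * s)) x = z ^ s * x * δ := by
  induction s with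
  | zero =>
    intro x
    refine ⟨1, D.one_mem, ?_⟩
    rw [mul_zero, zpow_zero, zpow_zero, one_mul, mul_one]
    rfl
  | succ n ih =>
    intro x
    obtain ⟨δ₁, h₁, e₁⟩ := U_two H x
    obtain ⟨δ₂, h₂, e₂⟩ := ih (H.up.U (H.up.U x))
    refine ⟨δ₁ * δ₂, D.mul_mem h₁ h₂, ?_⟩
    have h3 : H.up.U ^ (2 * ((n : ℤ) + 1)) = H.up.U ^ (2 * (n : ℤ)) * (H.up.U * H.up.U) := by
      rw [mul_add, mul_one, zpow_add]
      rfl
    rw [h3]
    show (H.up.U ^ (2 * (n : ℤ))) (H.up.U (H.up.U x)) = _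
    rw [e₂, e₁, zpow_add_one]
    group
  | pred n ih =>
    intro x
    obtain ⟨δ₁, h₁, e₁⟩ := U_two H ((H.up.U * H.up.U)⁻¹ x)
    obtain ⟨δ₂, h₂, e₂⟩ := ih ((H.up.U * H.up.U)⁻¹ x)
    refine ⟨δ₁⁻¹ * δ₂, D.mul_mem (D.inv_mem h₁) h₂, ?_⟩
    have h3 : H.up.U ^ (2 * (-(n : ℤ) - 1)) = H.up.U ^ (2 * (-(n : ℤ))) * (H.up.U * H.up.U)⁻¹ := by
      rw [mul_sub, mul_one, zpow_sub]
      rfl
    have h4 : H.up.U (H.up.U ((H.up.U * H.up.U)⁻¹ x)) = x := (H.up.U * H.up.U).apply_symm_apply x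
    rw [h4] at e₁
    rw [h3]
    show (H.up.U ^ (2 * (-(n : ℤ)))) ((H.up.U * H.up.U)⁻¹ x) = _
    have h5 : ((H.up.U * H.up.U)⁻¹ x) = z⁻¹ * x * δ₁⁻¹ := by
      rw [eq_mul_inv_iff_mul_eq, eq_inv_mul_iff_mul_eq, ← mul_assoc]
      exact e₁.symm
    rw [e₂, h5, zpow_sub_one]
    group

/-- The relation `y ∈ ⟨z⟩ x D`. -/
def Rl (D : Subgroup Q) (z x y : Q) : Prop := ∃ s : ℤ, ∃ δ ∈ D, y = z ^ s * x * δ

theorem Rl.refl (x : Q) : Rl D z x x := ⟨0, 1, D.one_mem, by rw [zpow_zero, one_mul, mul_one]⟩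

theorem Rl.symm {x y : Q} (h : Rl D z x y) : Rl D z y x := by
  obtain ⟨s, δ, hδ, rfl⟩ := h
  exact ⟨-s, δ⁻¹, D.inv_mem hδ, by group⟩

theorem Rl.trans {x y w : Q} (h : Rl D z x y) (h' : Rl D z y w) : Rl D z x w := by
  obtain ⟨s, δ, hδ, rfl⟩ := h
  obtain ⟨s', δ', hδ', rfl⟩ := h'
  exact ⟨s' + s, δ * δ', D.mul_mem hδ hδ', by group⟩

theorem Rl.mul (H : HypC B a b eps D z k) {x y : Q} (h : Rl D z x y) (w : Q) : Rl D z (x * w) (y * w) := by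
  obtain ⟨s, δ, hδ, rfl⟩ := h
  exact ⟨s, w⁻¹ * δ * w, conjD H hδ w, by group⟩

theorem Rl.of_mem {x y : Q} (h : x⁻¹ * y ∈ D) : Rl D z x y := ⟨0, _, h, by group⟩

/-- A power of `U` moves `x` to the block of `x` or of a neighbour of `x`. -/
theorem Rl_U (H : HypC B a b eps D z k) (t : ℤ) (x : Q) :
    ∃ v : Option B.L, Rl D z (x * ov B v) ((H.up.U ^ t) x) := by
  rcases Int.even_or_odd' t with ⟨s, rfl | rfl⟩
  · obtain ⟨δ, hδ, h⟩ := U_even H s x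
    exact ⟨none, s, δ, hδ, by rw [h]; show _ = z ^ s * (x * 1) * δ; rw [mul_one]⟩
  · obtain ⟨δ, hδ, h⟩ := U_even H s (H.up.U x)
    have h1 : (H.up.U ^ (2 * s + 1)) x = (H.up.U ^ (2 * s)) (H.up.U x) := by
      rw [zpow_add_one]
      rfl
    refine ⟨some (H.up.up x), s, δ, hδ, ?_⟩
    rw [h1, h, H.up.hU]
    rfl

/-- Every vertex of the block of `x` lies in the line of some `x δ`, `δ ∈ D`. -/
theorem Rl_ln (H : HypC B a b eps D z k) {x y : Q} (h : Rl D z x y) : ∃ δ ∈ D, lnU H.up y = lnU H.up (x * δ) := by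
  obtain ⟨s, δ, hδ, rfl⟩ := h
  obtain ⟨δ', hδ', h'⟩ := U_even H (-s) (z ^ s * x * δ)
  refine ⟨δ * δ', D.mul_mem hδ hδ', Quotient.sound ⟨2 * -s, ?_⟩⟩
  rw [h']
  group

end

end NearC

open SQ2.NearP NearC

/-- NEAR -/
theorem near : NearCS := by
  classical
  intro Q _ _ B a b eps D z k H c W cl N x s₁ s₂ F rk hF h₁ h₂ hT i
  have := H.finL
  -- near paths
  let nr : Fin N → Prop := fun i' => ∃ y ∈ F i, ∃ y' ∈ F i', ∃ l l' : ℤ, (H.up.U ^ l) y = (H.up.U ^ l') y'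
  -- an element of a frontier
  have hfr : ∀ i', ∀ y ∈ F i', ∃ (f : Fin 4 → Option B.L) (v : Option B.L), Rl D z (x i' * wv B f * ov B v) y := by
    intro i' y hy
    obtain ⟨w, hw, o, ho⟩ := (hF i').fsub y hy
    obtain ⟨f, hf⟩ := exists_wv w hw
    rw [hf] at ho
    obtain ⟨v, hv⟩ := Rl_U H o (x i' * wv B f)
    exact ⟨f, v, hv.trans (Rl.of_mem ho)⟩
  -- the lines of a path that is near
  have hx : ∀ i', nr i' → ∀ y ∈ F i', ∃ (f : Fin 3 → Fin 4 → Option B.L) (v : Fin 4 → Option B.L),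
      Rl D z (x i * wv B (f 0) * ov B (v 0) * ov B (v 1) * (ov B (v 2))⁻¹ * (wv B (f 1))⁻¹ * wv B (f 2) * ov B (v 3))
        y := by
    rintro i' ⟨y₁, hy₁, y₂, hy₂, l, l', he⟩ y hy
    obtain ⟨f₀, v₀, r₀⟩ := hfr i y₁ hy₁
    obtain ⟨f₁, v₂, r₁⟩ := hfr i' y₂ hy₂
    obtain ⟨f₂, v₃, r₂⟩ := hfr i' y hy
    have e : y₂ = (H.up.U ^ (l - l')) y₁ := by
      rw [sub_eq_neg_add, zpow_add, Equiv.Perm.mul_apply, he, ← Equiv.Perm.mul_apply, ← zpow_add, neg_add_cancel,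
        zpow_zero]
      rfl
    obtain ⟨v₁, r₃⟩ := Rl_U H (l - l') y₁
    rw [← e] at r₃
    have r₄ := ((r₀.mul H (ov B v₁)).trans r₃).trans r₁.symm
    have r₅ := (((r₄.mul H (ov B v₂)⁻¹).mul H (wv B f₁)⁻¹).mul H (wv B f₂)).mul H (ov B v₃)
    rw [mul_inv_cancel_right, mul_inv_cancel_right] at r₅
    exact ⟨![f₀, f₁, f₂], ![v₀, v₁, v₂, v₃], r₅.trans r₂⟩
  -- a line for each path
  have hg : ∀ i', ∃ g : Q, (∃ p : Q → Prop, p g ∧ ∀ y, p y → ∀ i'', i'' ≠ i' →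
      (lnU H.up y = lnU H.up (x i'') ∨ lnU H.up y = lnU H.up (s₁ i'') ∨ lnU H.up y = lnU H.up (s₂ i'')) →
        rk i'' < rk i') ∧ (g = x i' ∨ g = s₁ i' ∨ g = s₂ i') := by
    intro i'
    obtain ⟨p, hp, hp'⟩ := hT.two i'
    rcases hp with ⟨h, -⟩ | ⟨h, -⟩ | ⟨h, -⟩
    · exact ⟨_, ⟨p, h, hp'⟩, Or.inl rfl⟩
    · exact ⟨_, ⟨p, h, hp'⟩, Or.inl rfl⟩
    · exact ⟨_, ⟨p, h, hp'⟩, Or.inr (Or.inl rfl)⟩
  choose g hg1 hg2 using hg
  have hgF : ∀ i', g i' ∈ F i' := by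
    intro i'
    rcases hg2 i' with h | h | h
    · rw [h]; exact (hF i').fx
    · rw [h]; exact h₁ i'
    · rw [h]; exact h₂ i'
  have hginj : ∀ i' i'', lnU H.up (g i') = lnU H.up (g i'') → i' = i'' := by
    intro i' i'' he
    by_contra hne
    have key : ∀ i' i'', lnU H.up (g i') = lnU H.up (g i'') → i' ≠ i'' → rk i'' < rk i' := by
      intro i' i'' he hne
      obtain ⟨p, h1, h2⟩ := hg1 i'
      refine h2 _ h1 i'' (Ne.symm hne) ?_
      rcases hg2 i'' with h | h | h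
      · left; rw [he, h]
      · right; left; rw [he, h]
      · right; right; rw [he, h]
    have h1 := key i' i'' he hne
    have h2 := key i'' i' he.symm (Ne.symm hne)
    omega
  -- the representation of the lines
  let G : ((Fin 3 → Fin 4 → Option B.L) × (Fin 4 → Option B.L)) × D → Quotient (Equiv.Perm.SameCycle.setoid H.up.U) :=
    fun p => lnU H.up (x i * wv B (p.1.1 0) * ov B (p.1.2 0) * ov B (p.1.2 1) * (ov B (p.1.2 2))⁻¹ *
      (wv B (p.1.1 1))⁻¹ * wv B (p.1.1 2) * ov B (p.1.2 3) * (p.2 : Q))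
  have hrep : ∀ i', nr i' → ∃ p, G p = lnU H.up (g i') := by
    intro i' hi'
    obtain ⟨f, v, r⟩ := hx i' hi' (g i') (hgF i')
    obtain ⟨δ, hδ, h⟩ := Rl_ln H r
    exact ⟨((f, v), ⟨δ, hδ⟩), h.symm⟩
  refine ⟨Finset.univ.filter nr, ?_, ?_⟩
  · have h1 : (Finset.univ.filter nr).card = Nat.card {i' // nr i'} := by
      rw [Nat.card_eq_fintype_card, Fintype.card_subtype]
    rw [h1]
    choose ψ hψ using hrep
    have h2 : Function.Injective fun i' : {i' // nr i'} => ψ i'.1 i'.2 := by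
      intro i' i'' h
      have h3 : G (ψ i'.1 i'.2) = G (ψ i''.1 i''.2) := congrArg G h
      rw [hψ, hψ] at h3
      exact Subtype.ext (hginj _ _ h3)
    have h3 := Nat.card_le_card_of_injective _ h2
    have h4 : Nat.card (((Fin 3 → Fin 4 → Option B.L) × (Fin 4 → Option B.L)) × D) =
        (((Nat.card B.L + 1) ^ 4) ^ 3 * (Nat.card B.L + 1) ^ 4) * Nat.card D := by
      have h5 : Nat.card (Option B.L) = Nat.card B.L + 1 := Finite.card_option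
      rw [Nat.card_prod, Nat.card_prod, Nat.card_fun, Nat.card_fun, h5, Nat.card_eq_fintype_card (α := Fin 4),
        Fintype.card_fin, Nat.card_eq_fintype_card (α := Fin 3), Fintype.card_fin]
    rw [h4] at h3
    have h5 : Nat.card D ≤ k := Nat.le_of_dvd H.kpos H.card
    have h6 : k ≤ k ^ 8 := Nat.le_self_pow (by norm_num) k
    calc Nat.card {i' // nr i'} ≤ _ := h3
      _ = (Nat.card B.L + 1) ^ 16 * Nat.card D := by ring
      _ ≤ (Nat.card B.L + 2) ^ 16 * k ^ 8 := Nat.mul_le_mul (Nat.pow_le_pow_left (by omega) 16) (h5.trans h6)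
      _ ≤ (Nat.card B.L + 2) ^ 20 * k ^ 8 :=
        Nat.mul_le_mul_right (k ^ 8) (Nat.pow_le_pow_right (by omega) (by omega))
  · intro i' hi' y hy y' hy' l l' he
    apply hi'
    rw [Finset.mem_filter]
    exact ⟨Finset.mem_univ _, y, hy, y', hy', l, l', he⟩

end Pool.Agent.Lib.MP_688fd0_co.SQ4
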